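import Mathlib

set_option autoImplicit false

namespace Pool.Agent.Results.MP_162c7e_co.SevenModEight

/-- Keedwell's condition for order `r` (equivalent to the existence of an array `A_r^*`):
the residues `2, ..., r - 2` modulo `r - 1` can be listed so that the partial sums are pairwise
distinct and nonzero modulo `r - 1`, and the list lowered by one has the same property. -/
def Good (r : ℕ) : Prop :=
  ∃ σ : Equiv.Perm (Fin (r - 3)),
    (Function.Injective
        (fun k : Fin (r - 3) => ∑ i ∈ Finset.Iic k, (((σ i : ℕ) + 2 : ℕ) : ZMod (r - 1))) ∧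
      ∀ k : Fin (r - 3), ∑ i ∈ Finset.Iic k, (((σ i : ℕ) + 2 : ℕ) : ZMod (r - 1)) ≠ 0) ∧
    (Function.Injective
        (fun k : Fin (r - 3) => ∑ i ∈ Finset.Iic k, (((σ i : ℕ) + 1 : ℕ) : ZMod (r - 1))) ∧
      ∀ k : Fin (r - 3), ∑ i ∈ Finset.Iic k, (((σ i : ℕ) + 1 : ℕ) : ZMod (r - 1)) ≠ 0)

theorem sum_iic {M : Type*} [AddCommMonoid M] (n : ℕ) (f : ℕ → M) (k : Fin n) :
    ∑ i ∈ Finset.Iic k, f (i : ℕ) = ∑ i ∈ Finset.range (k.val + 1), f i := by
  have h : Finset.range (k.val + 1) = (Finset.Iic k).map Fin.valEmbedding := by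
    rw [Fin.map_valEmbedding_Iic]
    ext x
    simp
  rw [h, Finset.sum_map]
  rfl

/-- the reformulation: a sequence `c 0, ..., c (r - 3)` of integers which is injective modulo
`r - 1`, with `c i - i` injective and with injective consecutive differences. -/
theorem good_of_seq (r : ℕ) (hr : 4 ≤ r) (c : ℕ → ℤ)
    (hc : ∀ i j : ℕ, i < r - 2 → j < r - 2 → ((r - 1 : ℕ) : ℤ) ∣ c i - c j → i = j)
    (hb : ∀ i j : ℕ, i < r - 2 → j < r - 2 → ((r - 1 : ℕ) : ℤ) ∣ (c i - i) - (c j - j) → i = j)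
    (hd : ∀ i j : ℕ, i < r - 3 → j < r - 3 →
      ((r - 1 : ℕ) : ℤ) ∣ (c (i + 1) - c i) - (c (j + 1) - c j) → i = j) : Good r := by
  set m : ℕ := r - 1 with hm
  have hm0 : (0 : ℤ) < (m : ℤ) := by omega
  -- the representative of a consecutive difference
  set e : ℕ → ℤ := fun k => (c (k + 1) - c k) % (m : ℤ) with he
  have he0 : ∀ k, 0 ≤ e k := fun k => Int.emod_nonneg _ (by omega)
  have he1 : ∀ k, e k < m := fun k => Int.emod_lt_of_pos _ hm0
  have hdvd : ∀ k, (m : ℤ) ∣ (c (k + 1) - c k) - e k := fun k => by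
    have := Int.emod_add_mul_ediv (c (k + 1) - c k) (m : ℤ)
    exact ⟨(c (k + 1) - c k) / m, by simp only [he]; linarith⟩
  have hne0 : ∀ k, k < r - 3 → e k ≠ 0 := by
    intro k hk h0
    have h1 := hdvd k
    rw [h0, sub_zero] at h1
    have := hc (k + 1) k (by omega) (by omega) h1
    omega
  have hne1 : ∀ k, k < r - 3 → e k ≠ 1 := by
    intro k hk h0
    have h1 := hdvd k
    rw [h0] at h1
    have := hb (k + 1) k (by omega) (by omega) (by
      have e2 : (c (k + 1) - ((k + 1 : ℕ) : ℤ)) - (c k - (k : ℤ)) = c (k + 1) - c k - 1 := by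
        push_cast; ring
      rw [e2]; exact h1)
    omega
  have hlt : ∀ k, k < r - 3 → (e k).toNat - 2 < r - 3 := by
    intro k hk
    have h0 := he0 k
    have h1 := he1 k
    have h2 := hne0 k hk
    have h3 := hne1 k hk
    omega
  let f : Fin (r - 3) → Fin (r - 3) := fun k => ⟨(e k.val).toNat - 2, hlt k.val k.isLt⟩
  have hf : Function.Injective f := by
    intro a b hab
    have h : (e a.val).toNat - 2 = (e b.val).toNat - 2 := by
      simpa [f, Fin.ext_iff] using hab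
    have h0 := he0 a.val
    have h2 := hne0 a.val a.isLt
    have h3 := hne1 a.val a.isLt
    have g0 := he0 b.val
    have g2 := hne0 b.val b.isLt
    have g3 := hne1 b.val b.isLt
    have hab2 : e a.val = e b.val := by omega
    have h4 := hdvd a.val
    have h5 := hdvd b.val
    rw [hab2] at h4
    have h6 := dvd_sub h4 h5
    have e2 : c (a.val + 1) - c a.val - e b.val - (c (b.val + 1) - c b.val - e b.val) =
      (c (a.val + 1) - c a.val) - (c (b.val + 1) - c b.val) := by ring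
    rw [e2] at h6
    exact Fin.ext (hd a.val b.val a.isLt b.isLt h6)
  let σ : Equiv.Perm (Fin (r - 3)) :=
    Equiv.ofBijective f (Finite.injective_iff_bijective.1 hf)
  have hσ2 : ∀ k : Fin (r - 3), (((σ k : ℕ) + 2 : ℕ) : ZMod m) =
      ((c (k.val + 1) - c k.val : ℤ) : ZMod m) := by
    intro k
    have h1 : (σ k : ℕ) = (e k.val).toNat - 2 := rfl
    have h0 := he0 k.val
    have h2 := hne0 k.val k.isLt
    have h3 := hne1 k.val k.isLt
    have h4 : ((((σ k : ℕ) + 2 : ℕ) : ℤ)) = e k.val := by omega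
    have h5 : (((σ k : ℕ) + 2 : ℕ) : ZMod m) = ((e k.val : ℤ) : ZMod m) := by
      rw [← h4]; push_cast; ring
    rw [h5]
    rw [ZMod.intCast_eq_intCast_iff_dvd_sub]
    exact hdvd k.val
  have hσ1 : ∀ k : Fin (r - 3), (((σ k : ℕ) + 1 : ℕ) : ZMod m) =
      (((c (k.val + 1) - (k.val + 1 : ℕ)) - (c k.val - (k.val : ℕ)) : ℤ) : ZMod m) := by
    intro k
    have h := hσ2 k
    push_cast at h ⊢
    linear_combination h
  have hs2 : ∀ k : Fin (r - 3), ∑ i ∈ Finset.Iic k, (((σ i : ℕ) + 2 : ℕ) : ZMod m) =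
      ((c (k.val + 1) - c 0 : ℤ) : ZMod m) := by
    intro k
    rw [Finset.sum_congr rfl (fun i _ => hσ2 i),
      sum_iic (r - 3) (fun i => ((c (i + 1) - c i : ℤ) : ZMod m)) k]
    rw [← Int.cast_sum, Finset.sum_range_sub]
  have hs1 : ∀ k : Fin (r - 3), ∑ i ∈ Finset.Iic k, (((σ i : ℕ) + 1 : ℕ) : ZMod m) =
      (((c (k.val + 1) - (k.val + 1 : ℕ)) - (c 0 - (0 : ℕ)) : ℤ) : ZMod m) := by
    intro k
    rw [Finset.sum_congr rfl (fun i _ => hσ1 i),
      sum_iic (r - 3) (fun i => (((c (i + 1) - (i + 1 : ℕ)) - (c i - (i : ℕ)) : ℤ) : ZMod m)) k]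
    rw [← Int.cast_sum, Finset.sum_range_sub (fun i : ℕ => c i - (i : ℤ))]
  refine ⟨σ, ⟨?_, ?_⟩, ⟨?_, ?_⟩⟩
  · intro k l hkl
    have h : ((c (k.val + 1) - c 0 : ℤ) : ZMod m) = ((c (l.val + 1) - c 0 : ℤ) : ZMod m) := by
      rw [← hs2 k, ← hs2 l]; exact hkl
    rw [ZMod.intCast_eq_intCast_iff_dvd_sub] at h
    have h2 := hc (l.val + 1) (k.val + 1) (by have := l.isLt; omega) (by have := k.isLt; omega)
      (by
        have e2 : c (l.val + 1) - c 0 - (c (k.val + 1) - c 0) = c (l.val + 1) - c (k.val + 1) := by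
          ring
        rw [← e2]; exact h)
    exact Fin.ext (by omega)
  · intro k hk
    have h : ((c (k.val + 1) - c 0 : ℤ) : ZMod m) = 0 := by rw [← hs2 k]; exact hk
    rw [ZMod.intCast_zmod_eq_zero_iff_dvd] at h
    have := hc (k.val + 1) 0 (by have := k.isLt; omega) (by omega) h
    omega
  · intro k l hkl
    have h : (((c (k.val + 1) - (k.val + 1 : ℕ)) - (c 0 - (0 : ℕ)) : ℤ) : ZMod m) =
        (((c (l.val + 1) - (l.val + 1 : ℕ)) - (c 0 - (0 : ℕ)) : ℤ) : ZMod m) := by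
      rw [← hs1 k, ← hs1 l]; exact hkl
    rw [ZMod.intCast_eq_intCast_iff_dvd_sub] at h
    have h2 := hb (l.val + 1) (k.val + 1) (by have := l.isLt; omega) (by have := k.isLt; omega)
      (by
        have e2 : c (l.val + 1) - (l.val + 1 : ℕ) - (c 0 - (0 : ℕ)) -
          (c (k.val + 1) - (k.val + 1 : ℕ) - (c 0 - (0 : ℕ))) =
          (c (l.val + 1) - (l.val + 1 : ℕ)) - (c (k.val + 1) - (k.val + 1 : ℕ)) := by
          ring
        rw [← e2]; exact h)
    exact Fin.ext (by omega)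
  · intro k hk
    have h : (((c (k.val + 1) - (k.val + 1 : ℕ)) - (c 0 - (0 : ℕ)) : ℤ) : ZMod m) = 0 := by
      rw [← hs1 k]; exact hk
    rw [ZMod.intCast_zmod_eq_zero_iff_dvd] at h
    have := hb (k.val + 1) 0 (by have := k.isLt; omega) (by omega) h
    omega

theorem small_dvd (m X : ℤ) (hm : 0 < m) (h : m ∣ X) (h1 : -(4 * m) < X) (h2 : X < 4 * m) :
    X = -(3 * m) ∨ X = -(2 * m) ∨ X = -m ∨ X = 0 ∨ X = m ∨ X = 2 * m ∨ X = 3 * m := by
  obtain ⟨k, rfl⟩ := h
  have hk1 : k < 4 := by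
    by_contra hc
    push Not at hc
    nlinarith
  have hk2 : -4 < k := by
    by_contra hc
    push Not at hc
    nlinarith
  interval_cases k <;> omega

/-- the sequence -/
def cseq (i : ℕ) : ℤ :=
  if i % 8 = 0 then 12 * ((i / 8 : ℕ) : ℤ) - 1
  else if i % 8 = 1 then -4 * ((i / 8 : ℕ) : ℤ) - 4
  else if i % 8 = 2 then 4 * ((i / 8 : ℕ) : ℤ) - 2
  else if i % 8 = 3 then 12 * ((i / 8 : ℕ) : ℤ) + 3
  else if i % 8 = 4 then -4 * ((i / 8 : ℕ) : ℤ) - 5
  else if i % 8 = 5 then 12 * ((i / 8 : ℕ) : ℤ) + 7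
  else if i % 8 = 6 then 4 * ((i / 8 : ℕ) : ℤ)
  else -4 * ((i / 8 : ℕ) : ℤ) - 6

theorem cseq_spec (i : ℕ) : ∃ t : ℕ,
    (i = 8 * t ∧ cseq i = 12 * (t : ℤ) - 1 ∧ cseq (i + 1) = -4 * (t : ℤ) - 4) ∨
    (i = 8 * t + 1 ∧ cseq i = -4 * (t : ℤ) - 4 ∧ cseq (i + 1) = 4 * (t : ℤ) - 2) ∨
    (i = 8 * t + 2 ∧ cseq i = 4 * (t : ℤ) - 2 ∧ cseq (i + 1) = 12 * (t : ℤ) + 3) ∨
    (i = 8 * t + 3 ∧ cseq i = 12 * (t : ℤ) + 3 ∧ cseq (i + 1) = -4 * (t : ℤ) - 5) ∨
    (i = 8 * t + 4 ∧ cseq i = -4 * (t : ℤ) - 5 ∧ cseq (i + 1) = 12 * (t : ℤ) + 7) ∨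
    (i = 8 * t + 5 ∧ cseq i = 12 * (t : ℤ) + 7 ∧ cseq (i + 1) = 4 * (t : ℤ)) ∨
    (i = 8 * t + 6 ∧ cseq i = 4 * (t : ℤ) ∧ cseq (i + 1) = -4 * (t : ℤ) - 6) ∨
    (i = 8 * t + 7 ∧ cseq i = -4 * (t : ℤ) - 6 ∧ cseq (i + 1) = 12 * (t : ℤ) + 11) := by
  refine ⟨i / 8, ?_⟩
  have h8 : i % 8 < 8 := Nat.mod_lt _ (by norm_num)
  have hdm := Nat.div_add_mod i 8
  obtain ⟨t, ht⟩ : ∃ t, t = i / 8 := ⟨_, rfl⟩
  rw [← ht] at hdm ⊢
  interval_cases h : i % 8
  · left
    have h1 : (i + 1) % 8 = 1 := by omega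
    have h2 : (i + 1) / 8 = t := by omega
    refine ⟨by omega, ?_, ?_⟩
    · simp [cseq, h, ← ht]
    · simp [cseq, h1, h2]
  · right; left
    have h1 : (i + 1) % 8 = 2 := by omega
    have h2 : (i + 1) / 8 = t := by omega
    refine ⟨by omega, ?_, ?_⟩
    · simp [cseq, h, ← ht]
    · simp [cseq, h1, h2]
  · right; right; left
    have h1 : (i + 1) % 8 = 3 := by omega
    have h2 : (i + 1) / 8 = t := by omega
    refine ⟨by omega, ?_, ?_⟩
    · simp [cseq, h, ← ht]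
    · simp [cseq, h1, h2]
  · right; right; right; left
    have h1 : (i + 1) % 8 = 4 := by omega
    have h2 : (i + 1) / 8 = t := by omega
    refine ⟨by omega, ?_, ?_⟩
    · simp [cseq, h, ← ht]
    · simp [cseq, h1, h2]
  · right; right; right; right; left
    have h1 : (i + 1) % 8 = 5 := by omega
    have h2 : (i + 1) / 8 = t := by omega
    refine ⟨by omega, ?_, ?_⟩
    · simp [cseq, h, ← ht]
    · simp [cseq, h1, h2]
  · right; right; right; right; right; left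
    have h1 : (i + 1) % 8 = 6 := by omega
    have h2 : (i + 1) / 8 = t := by omega
    refine ⟨by omega, ?_, ?_⟩
    · simp [cseq, h, ← ht]
    · simp [cseq, h1, h2]
  · right; right; right; right; right; right; left
    have h1 : (i + 1) % 8 = 7 := by omega
    have h2 : (i + 1) / 8 = t := by omega
    refine ⟨by omega, ?_, ?_⟩
    · simp [cseq, h, ← ht]
    · simp [cseq, h1, h2]
  · right; right; right; right; right; right; right
    have h1 : (i + 1) % 8 = 0 := by omega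
    have h2 : (i + 1) / 8 = t + 1 := by omega
    refine ⟨by omega, ?_, ?_⟩
    · simp [cseq, h, ← ht]
    · simp [cseq, h1, h2]; ring

theorem cseq_inj (n i j : ℕ) (hi : i < 8 * n + 5) (hj : j < 8 * n + 5)
    (h : ((8 * n + 6 : ℕ) : ℤ) ∣ cseq i - cseq j) : i = j := by
  obtain ⟨s, hs⟩ := cseq_spec i
  obtain ⟨t, ht⟩ := cseq_spec j
  rcases hs with hs | hs | hs | hs | hs | hs | hs | hs <;>
  rcases ht with ht | ht | ht | ht | ht | ht | ht | ht <;>
  · obtain ⟨h1, h2, -⟩ := hs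
    obtain ⟨g1, g2, -⟩ := ht
    rw [h2, g2] at h
    rcases small_dvd _ _ (by omega) h (by omega) (by omega) with h3 | h3 | h3 | h3 | h3 | h3 | h3 <;>
    omega

theorem bseq_inj (n i j : ℕ) (hi : i < 8 * n + 5) (hj : j < 8 * n + 5)
    (h : ((8 * n + 6 : ℕ) : ℤ) ∣ (cseq i - i) - (cseq j - j)) : i = j := by
  obtain ⟨s, hs⟩ := cseq_spec i
  obtain ⟨t, ht⟩ := cseq_spec j
  rcases hs with hs | hs | hs | hs | hs | hs | hs | hs <;>
  rcases ht with ht | ht | ht | ht | ht | ht | ht | ht <;>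
  · obtain ⟨h1, h2, -⟩ := hs
    obtain ⟨g1, g2, -⟩ := ht
    rw [h2, g2] at h
    rcases small_dvd _ _ (by omega) h (by omega) (by omega) with h3 | h3 | h3 | h3 | h3 | h3 | h3 <;>
    omega

theorem dseq_inj (n i j : ℕ) (hi : i < 8 * n + 4) (hj : j < 8 * n + 4)
    (h : ((8 * n + 6 : ℕ) : ℤ) ∣ (cseq (i + 1) - cseq i) - (cseq (j + 1) - cseq j)) : i = j := by
  obtain ⟨s, hs⟩ := cseq_spec i
  obtain ⟨t, ht⟩ := cseq_spec j
  rcases hs with hs | hs | hs | hs | hs | hs | hs | hs <;>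
  rcases ht with ht | ht | ht | ht | ht | ht | ht | ht <;>
  · obtain ⟨h1, h2, h4⟩ := hs
    obtain ⟨g1, g2, g4⟩ := ht
    rw [h2, g2, h4, g4] at h
    rcases small_dvd _ _ (by omega) h (by omega) (by omega) with h3 | h3 | h3 | h3 | h3 | h3 | h3 <;>
    omega

/-- the orders `24 k + 15 ≡ 7 (mod 8)` are not prime powers -/
theorem not_primePow (k : ℕ) : ¬ IsPrimePow (24 * k + 15) := by
  rintro ⟨p, a, hp, ha, hpa⟩
  have hp' := Nat.prime_iff.2 hp
  have h3 : 3 ∣ p ^ a := by rw [hpa]; omega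
  have hp3 : p = 3 :=
    ((Nat.prime_dvd_prime_iff_eq Nat.prime_three hp').1
      (Nat.prime_three.dvd_of_dvd_pow h3)).symm
  subst hp3
  have h8 : ∀ b : ℕ, 3 ^ b % 8 = 1 ∨ 3 ^ b % 8 = 3 := by
    intro b
    induction b with
    | zero => left; norm_num
    | succ b ih => rw [pow_succ]; omega
  have := h8 a
  omega

/-- Keedwell arrays exist for every order `r ≡ 7 (mod 8)`. -/
theorem result : (∀ r : ℕ, r % 8 = 7 → Good r) ∧ (∀ k : ℕ, ¬ IsPrimePow (24 * k + 15)) := by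
  refine ⟨?_, not_primePow⟩
  intro r hr
  obtain ⟨n, rfl⟩ : ∃ n, r = 8 * n + 7 := ⟨r / 8, by omega⟩
  have e1 : 8 * n + 7 - 1 = 8 * n + 6 := by omega
  refine good_of_seq (8 * n + 7) (by omega) cseq ?_ ?_ ?_
  · intro i j hi hj h
    rw [e1] at h
    exact cseq_inj n i j (by omega) (by omega) h
  · intro i j hi hj h
    rw [e1] at h
    exact bseq_inj n i j (by omega) (by omega) h
  · intro i j hi hj h
    rw [e1] at h
    exact dseq_inj n i j (by omega) (by omega) h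

end Pool.Agent.Results.MP_162c7e_co.SevenModEight
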